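import Pool.Agent.Helper98.GX.St3

/-!
# Project GX, module GAM: the Cox ring is a polynomial ring
-/

set_option autoImplicit false

open scoped BigOperators

namespace Pool.Agent.Helper51.GX

open Pool.Agent.Helper98.GX
open Pool.Agent.Helper53.CX (DivVal LinSys IsNefCartier)

private lemma gam_fs {K : Type} [Field K] [Algebra ℂ K] (S : Set (DivVal K)) (g : DivVal K → ℤ)
    (T : Finset (DivVal K)) (h1 : ∀ p ∈ T, p ∈ S) (h2 : ∀ p ∈ S, g p ≠ 0 → p ∈ T) :
    ∑ᶠ p ∈ S, g p = ∑ p ∈ T, g p := by
  apply finsum_mem_eq_sum_of_inter_support_eq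
  ext p
  simp only [Set.mem_inter_iff, Function.mem_support, Finset.mem_coe]
  constructor
  · rintro ⟨h, h'⟩
    exact ⟨h2 p h h', h'⟩
  · rintro ⟨h, h'⟩
    exact ⟨h1 p h, h'⟩

/-- a nonzero section of `O(m)` has `m ≥ 0` -/
private lemma gam_nonneg (hFSP : StFSP) (hCBD : StCBD) {K : Type} [Field K] [Algebra ℂ K]
    {V : NormalProj K} {r : ℕ} (B : ClassBasis V r) (m : Fin r → ℤ) (f : K) (hf : f ≠ 0)
    (hm : ∀ q ∈ V.primes, 0 ≤ q.ord f + ∑ k, m k * (B.H k).div q) (l : Fin r) : 0 ≤ m l := by
  classical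
  obtain ⟨hc1, hc2, hc3, hc4⟩ := hCBD K V r B
  have hfin : ({p : DivVal K | p ∈ V.primes ∧ p.ord f ≠ 0} ∪
      ⋃ k, {p : DivVal K | p ∈ V.primes ∧ (B.H k).div p ≠ 0}).Finite :=
    (hFSP K V f hf).union (Set.finite_iUnion hc2)
  set T := hfin.toFinset with hT
  have hT1 : ∀ p ∈ T, p ∈ V.primes := by
    intro p hp
    rw [hT, Set.Finite.mem_toFinset] at hp
    rcases hp with hp | hp
    · exact hp.1
    · obtain ⟨k, hk⟩ := Set.mem_iUnion.1 hp
      exact hk.1
  have hTf : ∀ p ∈ V.primes, p.ord f ≠ 0 → p ∈ T := by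
    intro p hp h
    rw [hT, Set.Finite.mem_toFinset]
    exact Or.inl ⟨hp, h⟩
  have hTH : ∀ k, ∀ p ∈ V.primes, (B.H k).div p ≠ 0 → p ∈ T := by
    intro k p hp h
    rw [hT, Set.Finite.mem_toFinset]
    exact Or.inr (Set.mem_iUnion.2 ⟨k, hp, h⟩)
  have e1 : ∑ p ∈ T, (B.deg p l : ℤ) * p.ord f = 0 := by
    rw [← hc1 f hf l]
    refine (gam_fs _ _ T hT1 ?_).symm
    intro p hp h
    exact hTf p hp (fun h0 => h (by rw [h0, mul_zero]))
  have e2 : ∀ k, ∑ p ∈ T, (B.deg p l : ℤ) * (B.H k).div p = if k = l then 1 else 0 := by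
    intro k
    have hs : ∑ᶠ p ∈ V.primes, (B.deg p l : ℤ) * (B.H k).div p =
        ∑ p ∈ T, (B.deg p l : ℤ) * (B.H k).div p := by
      refine gam_fs _ _ T hT1 ?_
      intro p hp h
      exact hTH k p hp (fun h0 => h (by rw [h0, mul_zero]))
    rw [← hs]
    by_cases hkl : k = l
    · subst hkl
      rw [if_pos rfl]
      exact hc3 k
    · rw [if_neg hkl]
      exact hc4 k l hkl
  have e3 : ∑ p ∈ T, (B.deg p l : ℤ) * (p.ord f + ∑ k, m k * (B.H k).div p) = m l := by
    have : ∀ p, (B.deg p l : ℤ) * (p.ord f + ∑ k, m k * (B.H k).div p) =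
        (B.deg p l : ℤ) * p.ord f + ∑ k, m k * ((B.deg p l : ℤ) * (B.H k).div p) := by
      intro p
      rw [mul_add, Finset.mul_sum]
      congr 1
      refine Finset.sum_congr rfl fun k _ => ?_
      ring
    simp only [this]
    rw [Finset.sum_add_distrib, e1, zero_add, Finset.sum_comm]
    simp only [← Finset.mul_sum, e2]
    simp
  rw [← e3]
  refine Finset.sum_nonneg fun p hp => ?_
  exact mul_nonneg (Int.natCast_nonneg _) (hm p (hT1 p hp))

/-- the monomials of degree `m` in the sections -/
private def gamSet {K : Type} [Field K] [Algebra ℂ K] {V : NormalProj K} {r : ℕ}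
    {B : ClassBasis V r} {n : ℕ} {L : LogCoord K n} (Fr : Frame B L) (m : Fin r → ℤ) : Set K :=
  {h : K | ∃ α : Fin (n + r) → ℕ,
    (∀ k, ∑ a, (if Fr.bl a = k then (α a : ℤ) else 0) = m k) ∧ h = ∏ a, Fr.g a ^ α a}

private lemma gam_mul {K : Type} [Field K] [Algebra ℂ K] {V : NormalProj K} {r : ℕ}
    {B : ClassBasis V r} {n : ℕ} {L : LogCoord K n} (Fr : Frame B L) (m : Fin r → ℤ)
    (a : Fin (n + r)) (x : K)
    (hx : x ∈ Submodule.span ℂ (gamSet Fr (fun k => m k - if Fr.bl a = k then 1 else 0))) :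
    Fr.g a * x ∈ Submodule.span ℂ (gamSet Fr m) := by
  classical
  induction hx using Submodule.span_induction with
  | mem x hx =>
    obtain ⟨α, hα, rfl⟩ := hx
    refine Submodule.subset_span ⟨fun b => α b + if b = a then 1 else 0, ?_, ?_⟩
    · intro k
      have h1 := hα k
      have h2 : ∑ b, (if Fr.bl b = k then (((α b + if b = a then 1 else 0 : ℕ)) : ℤ) else 0) =
          ∑ b, (if Fr.bl b = k then (α b : ℤ) else 0) +
          ∑ b, (if b = a then (if Fr.bl b = k then (1 : ℤ) else 0) else 0) := by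
        rw [← Finset.sum_add_distrib]
        refine Finset.sum_congr rfl fun b _ => ?_
        by_cases hba : b = a
        · subst hba
          by_cases hb : Fr.bl b = k <;> simp [hb]
        · by_cases hb : Fr.bl b = k <;> simp [hb, hba]
      rw [h2, h1, Finset.sum_ite_eq']
      simp
    · simp only [pow_add, Finset.prod_mul_distrib]
      rw [mul_comm]
      congr 1
      simp
  | zero => simp
  | add x y _ _ hx hy =>
    rw [mul_add]
    exact Submodule.add_mem _ hx hy
  | smul c x _ hx =>
    rw [mul_smul_comm]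
    exact Submodule.smul_mem _ c hx

/-- the logarithmic derivative of a chart coordinate -/
private lemma gam_dz {K : Type} [Field K] [Algebra ℂ K] {V : NormalProj K} {r : ℕ}
    {B : ClassBasis V r} {n : ℕ} {L : LogCoord K n} (Fr : Frame B L)
    (d : Fin (n + r) → Derivation ℂ K K) (c : Fin (n + r) → Fin r → K)
    (h1 : ∀ a b, d a (Fr.g b) + c a (Fr.bl b) * Fr.g b = if a = b then 1 else 0)
    (β : Fin r → Fin (n + r)) (L' : LogCoord K n) (e : Fin n → Fin (n + r))
    (hch : IsChart Fr β L' e) (i j : Fin n) :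
    d (e j) (L'.z i) / L'.z i = if i = j then (Fr.g (e j))⁻¹ else 0 := by
  set l := Fr.bl (e i) with hl
  have hg : Fr.g (e i) ≠ 0 := Fr.ne _
  have hb : Fr.g (β l) ≠ 0 := Fr.ne _
  have hblb : Fr.bl (β l) = l := hch.base l
  have hne : e j ≠ β l := by
    intro h
    have h2 := (hch.range (e j)).1 ⟨j, rfl⟩
    apply h2
    rw [h, hblb]
  have hd1 : d (e j) (Fr.g (e i)) = (if e j = e i then 1 else 0) - c (e j) l * Fr.g (e i) := by
    rw [← h1 (e j) (e i)]
    ring
  have hd2 : d (e j) (Fr.g (β l)) = - (c (e j) l * Fr.g (β l)) := by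
    have h3 := h1 (e j) (β l)
    rw [if_neg hne, hblb] at h3
    linear_combination h3
  have hz : L'.z i * Fr.g (β l) = Fr.g (e i) := by
    rw [hch.z_eq i, ← hl]
    field_simp
  have hzne : L'.z i ≠ 0 := by
    intro h
    rw [h, zero_mul] at hz
    exact hg hz.symm
  have hd3 : d (e j) (L'.z i) * Fr.g (β l) + L'.z i * d (e j) (Fr.g (β l)) = d (e j) (Fr.g (e i)) := by
    rw [← hz, Derivation.leibniz]
    simp only [smul_eq_mul]
    ring
  rw [hd1, hd2] at hd3
  have hd4 : d (e j) (L'.z i) * Fr.g (β l) = if e j = e i then 1 else 0 := by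
    have : L'.z i * -(c (e j) l * Fr.g (β l)) = - (c (e j) l * Fr.g (e i)) := by
      rw [← hz]
      ring
    rw [this] at hd3
    linear_combination hd3
  rw [div_eq_iff hzne]
  by_cases hij : i = j
  · subst hij
    rw [if_pos rfl] at hd4 ⊢
    have : d (e i) (L'.z i) = (Fr.g (β l))⁻¹ := eq_inv_of_mul_eq_one_left hd4
    rw [this, ← hz]
    field_simp
  · have hee : ¬ (e j = e i) := fun h => hij (hch.inj h).symm
    rw [if_neg hee] at hd4
    rw [if_neg hij, zero_mul]
    exact (mul_eq_zero.1 hd4).resolve_right hb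

/-- GAM.  The Cox ring is the polynomial ring in the sections `g_a`. -/
theorem hGAM (hFSP : StFSP) (hCBD : StCBD) (hDRV : StDRV) (hREG : StREG) (hLPX : StLPX)
    (hUNQ : StUNQ) (hKER : StKER) : StGAM := by
  classical
  intro K _ _ V r B n L Fr m f hf hm
  obtain ⟨d, c, h1, h2, h3⟩ := hDRV K V r B n L Fr
  have hF : ∀ (m : Fin r → ℤ) (f : K), f ≠ 0 →
      (∀ q ∈ V.primes, 0 ≤ q.ord f + ∑ k, m k * (B.H k).div q) → ∀ a,
      d a f + (∑ k, (m k : K) * c a k) * f ≠ 0 → ∀ q ∈ V.primes,
      0 ≤ q.ord (d a f + (∑ k, (m k : K) * c a k) * f) +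
        ∑ k, (m k - if Fr.bl a = k then 1 else 0) * (B.H k).div q := by
    intro m f hf hm a ha q hq
    have h4 := hREG K V r B n L Fr d c h1 q hq m f a hf (hm q hq) ha
    have h5 : ∑ k, (m k - if Fr.bl a = k then 1 else 0) * (B.H k).div q =
        ∑ k, m k * (B.H k).div q - (B.H (Fr.bl a)).div q := by
      simp only [sub_mul, Finset.sum_sub_distrib]
      congr 1
      simp
    rw [h5]
    linarith
  have main : ∀ (N : ℕ) (m : Fin r → ℤ) (f : K), f ≠ 0 →
      (∀ q ∈ V.primes, 0 ≤ q.ord f + ∑ k, m k * (B.H k).div q) → ∑ k, m k = (N : ℤ) →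
      f ∈ Submodule.span ℂ (gamSet Fr m) := by
    intro N
    induction N with
    | zero =>
      intro m f hf hm hN
      have hm0 : ∀ k, 0 ≤ m k := gam_nonneg hFSP hCBD B m f hf hm
      have hmz : ∀ k, m k = 0 := by
        intro k
        exact (Finset.sum_eq_zero_iff_of_nonneg (fun k _ => hm0 k)).1 (by simpa using hN) k (Finset.mem_univ k)
      have hsum : ∀ a, ∑ k, (m k : K) * c a k = 0 := by
        intro a
        refine Finset.sum_eq_zero fun k _ => ?_
        rw [hmz k]
        simp
      have hd0 : ∀ a, d a f = 0 := by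
        intro a
        by_contra hne
        have hne' : d a f + (∑ k, (m k : K) * c a k) * f ≠ 0 := by
          rw [hsum a, zero_mul, add_zero]
          exact hne
        have h6 := gam_nonneg hFSP hCBD B (fun k => m k - if Fr.bl a = k then 1 else 0) _ hne'
          (hF m f hf hm a hne') (Fr.bl a)
        simp only [if_true] at h6
        rw [hmz (Fr.bl a)] at h6
        norm_num at h6
      choose β hβ using Fr.surj
      obtain ⟨L', e, hch⟩ := hLPX K V r B n L Fr β hβ
      have hth : ∀ j, L'.θ j f = 0 := by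
        intro j
        have h7 := hUNQ K n L' (d (e j)) f
        rw [hd0 (e j)] at h7
        have h8 : ∑ i, (d (e j) (L'.z i) / L'.z i) * L'.θ i f = (Fr.g (e j))⁻¹ * L'.θ j f := by
          simp only [gam_dz Fr d c h1 β L' e hch, ite_mul, zero_mul]
          simp
        rw [h8] at h7
        exact (mul_eq_zero.1 h7.symm).resolve_left (inv_ne_zero (Fr.ne _))
      obtain ⟨c0, hc0⟩ := hKER K n L' f hth
      have h9 : (1 : K) ∈ Submodule.span ℂ (gamSet Fr m) := by
        refine Submodule.subset_span ⟨fun _ => 0, ?_, ?_⟩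
        · intro k
          rw [hmz k]
          simp
        · simp
      have h10 := Submodule.smul_mem _ c0 h9
      rw [Algebra.smul_def, mul_one, ← hc0] at h10
      exact h10
    | succ N ih =>
      intro m f hf hm hN
      obtain ⟨k, hk⟩ : ∃ k, 0 < m k := by
        by_contra hcon
        push Not at hcon
        have : ∑ k, m k ≤ 0 := Finset.sum_nonpos fun k _ => hcon k
        rw [hN] at this
        push_cast at this
        linarith [Int.natCast_nonneg N]
      have hterm : ∀ a, (if Fr.bl a = k then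
          Fr.g a * (d a f + (∑ l, (m l : K) * c a l) * f) else 0) ∈ Submodule.span ℂ (gamSet Fr m) := by
        intro a
        by_cases hak : Fr.bl a = k
        · rw [if_pos hak]
          by_cases hz : d a f + (∑ l, (m l : K) * c a l) * f = 0
          · rw [hz, mul_zero]
            exact Submodule.zero_mem _
          · refine gam_mul Fr m a _ (ih _ _ hz (hF m f hf hm a hz) ?_)
            rw [Finset.sum_sub_distrib, hN]
            simp
        · rw [if_neg hak]
          exact Submodule.zero_mem _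
      have hsum : ∑ a, (if Fr.bl a = k then
          Fr.g a * (d a f + (∑ l, (m l : K) * c a l) * f) else 0) = (m k : K) * f := by
        have h11 : ∀ a, (if Fr.bl a = k then
            Fr.g a * (d a f + (∑ l, (m l : K) * c a l) * f) else 0) =
            (if Fr.bl a = k then Fr.g a * d a f else 0) +
            ∑ l, (m l : K) * f * (if Fr.bl a = k then Fr.g a * c a l else 0) := by
          intro a
          by_cases hak : Fr.bl a = k
          · simp only [if_pos hak]
            rw [mul_add, Finset.sum_mul, Finset.mul_sum]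
            congr 1
            refine Finset.sum_congr rfl fun l _ => ?_
            ring
          · simp only [if_neg hak]
            simp
        simp only [h11]
        rw [Finset.sum_add_distrib, h2 k f, zero_add, Finset.sum_comm]
        simp only [← Finset.mul_sum, h3]
        simp
      have h12 : (m k : K) * f ∈ Submodule.span ℂ (gamSet Fr m) := by
        rw [← hsum]
        exact Submodule.sum_mem _ fun a _ => hterm a
      have h13 := Submodule.smul_mem _ ((m k : ℂ)⁻¹) h12
      have h14 : ((m k : ℂ)⁻¹) • ((m k : K) * f) = f := by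
        have h15 : (m k : ℂ) ≠ 0 := by exact_mod_cast hk.ne'
        have h16 : (m k : K) = algebraMap ℂ K (m k : ℂ) := by simp
        rw [h16, ← Algebra.smul_def, smul_smul, inv_mul_cancel₀ h15, one_smul]
      rw [h14] at h13
      exact h13
  have hm0 : ∀ k, 0 ≤ m k := gam_nonneg hFSP hCBD B m f hf hm
  exact main (∑ k, m k).toNat m f hf hm (Int.toNat_of_nonneg (Finset.sum_nonneg fun k _ => hm0 k)).symm

end Pool.Agent.Helper51.GX
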